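import Mathlib

namespace Pool.Agent.H461R3.JV

universe u

/-- A supercommutative algebra with odd letters and a functional. -/
structure Dat (F : Type u) [Field F] (V C Q : Type u) [AddCommGroup V] [Module F V]
    [Ring C] [Algebra F C] [AddCommGroup Q] [Module F Q] where
  ι : V →ₗ[F] C
  τ : C →ₗ[F] Q
  σ : C →ₐ[F] C
  dec : ∀ c : C, ∃ e o : C, c = e + o ∧ σ e = e ∧ (∀ d, e * d = d * e) ∧
    σ o = -o ∧ (∀ d, o * d = σ d * o)
  σι : ∀ v, σ (ι v) = - ι v
  ιc : ∀ v d, ι v * d = σ d * ι v
  τσ : ∀ c, τ (σ c) = τ c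

variable {F : Type u} [Field F] {V C Q : Type u} [AddCommGroup V] [Module F V]
    [Ring C] [Algebra F C] [AddCommGroup Q] [Module F Q]

/-- the underlying space of the algebra attached to the data -/
def JA (_D : Dat F V C Q) : Type u := V × C × C × Q

namespace JA

variable {D : Dat F V C Q}

instance : AddCommGroup (JA D) := inferInstanceAs (AddCommGroup (V × C × C × Q))
instance : Module F (JA D) := inferInstanceAs (Module F (V × C × C × Q))

def mk (D : Dat F V C Q) (v : V) (p q : C) (s : Q) : JA D := (v, p, q, s)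
def v (x : JA D) : V := x.1
def p (x : JA D) : C := x.2.1
def q (x : JA D) : C := x.2.2.1
def s (x : JA D) : Q := x.2.2.2

@[ext] theorem ext' {x y : JA D} (h1 : x.v = y.v) (h2 : x.p = y.p) (h3 : x.q = y.q)
    (h4 : x.s = y.s) : x = y :=
  Prod.ext h1 (Prod.ext h2 (Prod.ext h3 h4))

@[simp] theorem v_mk (a : V) (b c : C) (d : Q) : (mk D a b c d).v = a := rfl
@[simp] theorem p_mk (a : V) (b c : C) (d : Q) : (mk D a b c d).p = b := rfl
@[simp] theorem q_mk (a : V) (b c : C) (d : Q) : (mk D a b c d).q = c := rfl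
@[simp] theorem s_mk (a : V) (b c : C) (d : Q) : (mk D a b c d).s = d := rfl
@[simp] theorem v_add (x y : JA D) : (x + y).v = x.v + y.v := rfl
@[simp] theorem p_add (x y : JA D) : (x + y).p = x.p + y.p := rfl
@[simp] theorem q_add (x y : JA D) : (x + y).q = x.q + y.q := rfl
@[simp] theorem s_add (x y : JA D) : (x + y).s = x.s + y.s := rfl
@[simp] theorem v_sub (x y : JA D) : (x - y).v = x.v - y.v := rfl
@[simp] theorem p_sub (x y : JA D) : (x - y).p = x.p - y.p := rfl
@[simp] theorem q_sub (x y : JA D) : (x - y).q = x.q - y.q := rfl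
@[simp] theorem s_sub (x y : JA D) : (x - y).s = x.s - y.s := rfl
@[simp] theorem v_zero : (0 : JA D).v = 0 := rfl
@[simp] theorem p_zero : (0 : JA D).p = 0 := rfl
@[simp] theorem q_zero : (0 : JA D).q = 0 := rfl
@[simp] theorem s_zero : (0 : JA D).s = 0 := rfl
@[simp] theorem v_smul (r : F) (x : JA D) : (r • x).v = r • x.v := rfl
@[simp] theorem p_smul (r : F) (x : JA D) : (r • x).p = r • x.p := rfl
@[simp] theorem q_smul (r : F) (x : JA D) : (r • x).q = r • x.q := rfl
@[simp] theorem s_smul (r : F) (x : JA D) : (r • x).s = r • x.s := rfl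

instance : Mul (JA D) where
  mul x y := mk D 0 (D.ι x.v * y.p + D.ι y.v * x.p)
    (y.q * D.ι x.v + x.q * D.ι y.v - (x.p * y.p + y.p * x.p))
    (D.τ (x.p * y.q + y.p * x.q))

@[simp] theorem v_mul (x y : JA D) : (x * y).v = 0 := rfl
@[simp] theorem p_mul (x y : JA D) : (x * y).p = D.ι x.v * y.p + D.ι y.v * x.p := rfl
@[simp] theorem q_mul (x y : JA D) : (x * y).q =
  y.q * D.ι x.v + x.q * D.ι y.v - (x.p * y.p + y.p * x.p) := rfl
@[simp] theorem s_mul (x y : JA D) : (x * y).s = D.τ (x.p * y.q + y.p * x.q) := rfl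

instance : NonUnitalNonAssocRing (JA D) :=
  { (inferInstance : AddCommGroup (JA D)), (inferInstance : Mul (JA D)) with
    left_distrib := by
      intro a b c
      ext <;> simp [mul_add, add_mul] <;> abel
    right_distrib := by
      intro a b c
      ext <;> simp [mul_add, add_mul] <;> abel
    zero_mul := by
      intro a
      ext <;> simp
    mul_zero := by
      intro a
      ext <;> simp }

instance : IsScalarTower F (JA D) (JA D) where
  smul_assoc r x y := by
    simp only [smul_eq_mul]
    ext <;> simp [smul_add, smul_sub]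

instance : SMulCommClass F (JA D) (JA D) where
  smul_comm r x y := by
    simp only [smul_eq_mul]
    ext <;> simp [smul_add, smul_sub]

theorem mul_comm' (x y : JA D) : x * y = y * x := by
  ext
  · simp
  · simp [add_comm]
  · simp only [q_mul]; rw [add_comm (x.p * y.p), add_comm (y.q * D.ι x.v)]
  · simp only [s_mul]; rw [add_comm]

end JA

end Pool.Agent.H461R3.JV
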