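import Pool.Agent.H461R3.JV.Jordan

namespace Pool.Agent.H461R3.JV

universe u

set_option linter.unusedSimpArgs false in
set_option maxHeartbeats 40000000 in
theorem big {C : Type u} [Ring C] {σ : C →+* C} (hs : ∀ c : C, c + c + c = 0)
    {y t1 t2 t3 t4 o o1 o2 o3 o4 e e1 e2 e3 e4 : C}
    (hy : ∀ d, y * d = σ d * y) (sy : σ y = -y)
    (ht1 : ∀ d, t1 * d = σ d * t1) (st1 : σ t1 = -t1)
    (ht2 : ∀ d, t2 * d = σ d * t2) (st2 : σ t2 = -t2)
    (ht3 : ∀ d, t3 * d = σ d * t3) (st3 : σ t3 = -t3)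
    (ht4 : ∀ d, t4 * d = σ d * t4) (st4 : σ t4 = -t4)
    (ho : ∀ d, o * d = σ d * o) (so : σ o = -o)
    (ho1 : ∀ d, o1 * d = σ d * o1) (so1 : σ o1 = -o1)
    (ho2 : ∀ d, o2 * d = σ d * o2) (so2 : σ o2 = -o2)
    (ho3 : ∀ d, o3 * d = σ d * o3) (so3 : σ o3 = -o3)
    (ho4 : ∀ d, o4 * d = σ d * o4) (so4 : σ o4 = -o4)
    (he : ∀ d, e * d = d * e) (se : σ e = e)
    (he1 : ∀ d, e1 * d = d * e1) (se1 : σ e1 = e1)
    (he2 : ∀ d, e2 * d = d * e2) (se2 : σ e2 = e2)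
    (he3 : ∀ d, e3 * d = d * e3) (se3 : σ e3 = e3)
    (he4 : ∀ d, e4 * d = d * e4) (se4 : σ e4 = e4)
    :
    (-(((y * (e3 + o3) + t3 * (e + o)) * ((t4 * (y * (e1 + o1) + t1 * (e + o))) * (y * (e2 + o2) + t2 * (e + o)) + (y * (e2 + o2) + t2 * (e + o)) * (t4 * (y * (e1 + o1) + t1 * (e + o))))) - ((y * (e4 + o4) + t4 * (e + o)) * ((t3 * (y * (e1 + o1) + t1 * (e + o))) * (y * (e2 + o2) + t2 * (e + o)) + (y * (e2 + o2) + t2 * (e + o)) * (t3 * (y * (e1 + o1) + t1 * (e + o))))) + ((y * (e4 + o4) + t4 * (e + o)) * ((t2 * (y * (e1 + o1) + t1 * (e + o))) * (y * (e3 + o3) + t3 * (e + o)) + (y * (e3 + o3) + t3 * (e + o)) * (t2 * (y * (e1 + o1) + t1 * (e + o))))) - ((y * (e4 + o4) + t4 * (e + o)) * ((t1 * (y * (e2 + o2) + t2 * (e + o))) * (y * (e3 + o3) + t3 * (e + o)) + (y * (e3 + o3) + t3 * (e + o)) * (t1 * (y * (e2 + o2) + t2 * (e + o)))))) - t1 * (t2 * (t3 * t4)) * ((e + o) * (e + o) * (e + o))) +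
    σ (-(((y * (e3 + o3) + t3 * (e + o)) * ((t4 * (y * (e1 + o1) + t1 * (e + o))) * (y * (e2 + o2) + t2 * (e + o)) + (y * (e2 + o2) + t2 * (e + o)) * (t4 * (y * (e1 + o1) + t1 * (e + o))))) - ((y * (e4 + o4) + t4 * (e + o)) * ((t3 * (y * (e1 + o1) + t1 * (e + o))) * (y * (e2 + o2) + t2 * (e + o)) + (y * (e2 + o2) + t2 * (e + o)) * (t3 * (y * (e1 + o1) + t1 * (e + o))))) + ((y * (e4 + o4) + t4 * (e + o)) * ((t2 * (y * (e1 + o1) + t1 * (e + o))) * (y * (e3 + o3) + t3 * (e + o)) + (y * (e3 + o3) + t3 * (e + o)) * (t2 * (y * (e1 + o1) + t1 * (e + o))))) - ((y * (e4 + o4) + t4 * (e + o)) * ((t1 * (y * (e2 + o2) + t2 * (e + o))) * (y * (e3 + o3) + t3 * (e + o)) + (y * (e3 + o3) + t3 * (e + o)) * (t1 * (y * (e2 + o2) + t2 * (e + o)))))) - t1 * (t2 * (t3 * t4)) * ((e + o) * (e + o) * (e + o))) = 0 := by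
  have zz : ∀ c : C, (12 : ℤ) • c = 0 ∧ (-12 : ℤ) • c = 0 ∧ (-18 : ℤ) • c = 0 := by
    intro c
    have h3 : (3 : ℤ) • c = 0 := by
      rw [show (3 : ℤ) = 1 + 1 + 1 by norm_num, add_smul, add_smul, one_smul]; exact hs c
    refine ⟨?_, ?_, ?_⟩
    · rw [show (12 : ℤ) = 4 * 3 by norm_num, mul_smul, h3, smul_zero]
    · rw [show (-12 : ℤ) = (-4) * 3 by norm_num, mul_smul, h3, smul_zero]
    · rw [show (-18 : ℤ) = (-6) * 3 by norm_num, mul_smul, h3, smul_zero]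
  simp only [map_sub, map_add, map_mul, map_neg, sy, st1, st2, st3, st4, so, so1, so2, so3, so4, se, se1, se2, se3, se4,
    sub_eq_add_neg, neg_add, mul_add, add_mul, mul_assoc, mul_neg, neg_mul, neg_neg, mul_zero, zero_mul, neg_zero, add_zero, zero_add,
    osq hs hy sy, osq' hs hy sy, oswap hy st1,
    oswap' hy st1, oswap hy st2, oswap' hy st2,
    oswap hy st3, oswap' hy st3, oswap hy st4,
    oswap' hy st4, oswap hy so, oswap' hy so,
    oswap hy so1, oswap' hy so1, oswap hy so2,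
    oswap' hy so2, oswap hy so3, oswap' hy so3,
    oswap hy so4, oswap' hy so4, osq hs ht1 st1,
    osq' hs ht1 st1, oswap ht1 st2, oswap' ht1 st2,
    oswap ht1 st3, oswap' ht1 st3, oswap ht1 st4,
    oswap' ht1 st4, oswap ht1 so, oswap' ht1 so,
    oswap ht1 so1, oswap' ht1 so1, oswap ht1 so2,
    oswap' ht1 so2, oswap ht1 so3, oswap' ht1 so3,
    oswap ht1 so4, oswap' ht1 so4, osq hs ht2 st2,
    osq' hs ht2 st2, oswap ht2 st3, oswap' ht2 st3,
    oswap ht2 st4, oswap' ht2 st4, oswap ht2 so,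
    oswap' ht2 so, oswap ht2 so1, oswap' ht2 so1,
    oswap ht2 so2, oswap' ht2 so2, oswap ht2 so3,
    oswap' ht2 so3, oswap ht2 so4, oswap' ht2 so4,
    osq hs ht3 st3, osq' hs ht3 st3, oswap ht3 st4,
    oswap' ht3 st4, oswap ht3 so, oswap' ht3 so,
    oswap ht3 so1, oswap' ht3 so1, oswap ht3 so2,
    oswap' ht3 so2, oswap ht3 so3, oswap' ht3 so3,
    oswap ht3 so4, oswap' ht3 so4, osq hs ht4 st4,
    osq' hs ht4 st4, oswap ht4 so, oswap' ht4 so,
    oswap ht4 so1, oswap' ht4 so1, oswap ht4 so2,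
    oswap' ht4 so2, oswap ht4 so3, oswap' ht4 so3,
    oswap ht4 so4, oswap' ht4 so4, osq hs ho so,
    osq' hs ho so, oswap ho so1, oswap' ho so1,
    oswap ho so2, oswap' ho so2, oswap ho so3,
    oswap' ho so3, oswap ho so4, oswap' ho so4,
    osq hs ho1 so1, osq' hs ho1 so1, oswap ho1 so2,
    oswap' ho1 so2, oswap ho1 so3, oswap' ho1 so3,
    oswap ho1 so4, oswap' ho1 so4, osq hs ho2 so2,
    osq' hs ho2 so2, oswap ho2 so3, oswap' ho2 so3,
    oswap ho2 so4, oswap' ho2 so4, osq hs ho3 so3,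
    osq' hs ho3 so3, oswap ho3 so4, oswap' ho3 so4,
    osq hs ho4 so4, osq' hs ho4 so4, cswap he y,
    cswap' he y, cswap he t1, cswap' he t1,
    cswap he t2, cswap' he t2, cswap he t3,
    cswap' he t3, cswap he t4, cswap' he t4,
    cswap he o, cswap' he o, cswap he o1,
    cswap' he o1, cswap he o2, cswap' he o2,
    cswap he o3, cswap' he o3, cswap he o4,
    cswap' he o4, cswap he e1, cswap' he e1,
    cswap he e2, cswap' he e2, cswap he e3,
    cswap' he e3, cswap he e4, cswap' he e4,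
    cswap he1 y, cswap' he1 y, cswap he1 t1,
    cswap' he1 t1, cswap he1 t2, cswap' he1 t2,
    cswap he1 t3, cswap' he1 t3, cswap he1 t4,
    cswap' he1 t4, cswap he1 o, cswap' he1 o,
    cswap he1 o1, cswap' he1 o1, cswap he1 o2,
    cswap' he1 o2, cswap he1 o3, cswap' he1 o3,
    cswap he1 o4, cswap' he1 o4, cswap he1 e2,
    cswap' he1 e2, cswap he1 e3, cswap' he1 e3,
    cswap he1 e4, cswap' he1 e4, cswap he2 y,
    cswap' he2 y, cswap he2 t1, cswap' he2 t1,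
    cswap he2 t2, cswap' he2 t2, cswap he2 t3,
    cswap' he2 t3, cswap he2 t4, cswap' he2 t4,
    cswap he2 o, cswap' he2 o, cswap he2 o1,
    cswap' he2 o1, cswap he2 o2, cswap' he2 o2,
    cswap he2 o3, cswap' he2 o3, cswap he2 o4,
    cswap' he2 o4, cswap he2 e3, cswap' he2 e3,
    cswap he2 e4, cswap' he2 e4, cswap he3 y,
    cswap' he3 y, cswap he3 t1, cswap' he3 t1,
    cswap he3 t2, cswap' he3 t2, cswap he3 t3,
    cswap' he3 t3, cswap he3 t4, cswap' he3 t4,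
    cswap he3 o, cswap' he3 o, cswap he3 o1,
    cswap' he3 o1, cswap he3 o2, cswap' he3 o2,
    cswap he3 o3, cswap' he3 o3, cswap he3 o4,
    cswap' he3 o4, cswap he3 e4, cswap' he3 e4,
    cswap he4 y, cswap' he4 y, cswap he4 t1,
    cswap' he4 t1, cswap he4 t2, cswap' he4 t2,
    cswap he4 t3, cswap' he4 t3, cswap he4 t4,
    cswap' he4 t4, cswap he4 o, cswap' he4 o,
    cswap he4 o1, cswap' he4 o1, cswap he4 o2,
    cswap' he4 o2, cswap he4 o3, cswap' he4 o3,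
    cswap he4 o4, cswap' he4 o4]
  abel_nf
  simp only [fun c => (zz c).1, fun c => (zz c).2.1, fun c => (zz c).2.2, add_zero]

end Pool.Agent.H461R3.JV
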