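import Mathlib

namespace Pool.Agent.H461R3.JV

universe u

variable (F : Type u) [Field F]

/-- `A` satisfies the identity `f = 0`, where `f` is an element of the free nonassociative
algebra over `F` on countably many letters: `f` vanishes under every substitution of elements
of `A` for the letters. -/
def Satisfies (A : Type u) [NonUnitalNonAssocRing A] [Module F A] [IsScalarTower F A A]
    [SMulCommClass F A A] (f : FreeNonUnitalNonAssocAlgebra F ℕ) : Prop :=
  ∀ a : ℕ → A, FreeNonUnitalNonAssocAlgebra.lift F a f = 0

/-- `A` belongs to the variety defined by the set `S` of identities. -/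
def InVariety (S : Set (FreeNonUnitalNonAssocAlgebra F ℕ)) (A : Type u) [NonUnitalNonAssocRing A]
    [Module F A] [IsScalarTower F A A] [SMulCommClass F A A] : Prop :=
  ∀ f ∈ S, Satisfies F A f

/-- `A` is a Jordan algebra: `xy = yx` and `(x²y)x = x²(yx)`. -/
def IsJordanAlgebra (A : Type u) [NonUnitalNonAssocRing A] : Prop :=
  (∀ x y : A, x * y = y * x) ∧ ∀ x y : A, ((x * x) * y) * x = (x * x) * (y * x)

/-- `A^(0) = A`, and `A^(k+1)` is the span of the products of two elements of `A^(k)`. -/
def derivedPower (A : Type u) [NonUnitalNonAssocRing A] [Module F A] : ℕ → Submodule F A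
  | 0 => ⊤
  | n + 1 => Submodule.span F {z | ∃ x ∈ derivedPower A n, ∃ y ∈ derivedPower A n, z = x * y}

/-- The variety defined by `S` is also defined by some finite set of identities. -/
def IsFinitelyBased (S : Set (FreeNonUnitalNonAssocAlgebra F ℕ)) : Prop :=
  ∃ T : Set (FreeNonUnitalNonAssocAlgebra F ℕ), T.Finite ∧
    ∀ (A : Type u) [NonUnitalNonAssocRing A] [Module F A] [IsScalarTower F A A]
      [SMulCommClass F A A], InVariety F S A ↔ InVariety F T A

end Pool.Agent.H461R3.JV
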