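import Pool.Agent.H461R3.JV.Big

namespace Pool.Agent.H461R3.JV

universe u

section gen
variable {A : Type u} [NonUnitalNonAssocRing A]

/-- left-normed product of `u` by the letters `a 5, a 6, ...` -/
def chain (a : ℕ → A) : ℕ → A → A
  | 0, u => u
  | n + 1, u => chain a n u * a (5 + n)

def mono (a : ℕ → A) (k i j l m : ℕ) : A :=
  (chain a (2 * k) ((a 0 * a i) * a m) * (a 0 * a j)) * (a 0 * a l)

/-- the polynomials of the infinite basis -/
def G (a : ℕ → A) (k : ℕ) : A :=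
  mono a k 1 2 3 4 - mono a k 1 2 4 3 + mono a k 1 3 4 2 - mono a k 2 3 4 1

end gen

variable {F : Type u} [Field F] {V C Q : Type u} [AddCommGroup V] [Module F V]
    [Ring C] [Algebra F C] [AddCommGroup Q] [Module F Q]

namespace JA
variable {D : Dat F V C Q}

def W (x : ℕ → JA D) : ℕ → C
  | 0 => 1
  | n + 1 => D.ι (x (5 + n)).v * W x n

theorem chain_v (x : ℕ → JA D) (n : ℕ) (u : JA D) (hu : u.v = 0) : (chain x n u).v = 0 := by
  cases n with
  | zero => exact hu
  | succ n => rfl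

theorem chain_p (x : ℕ → JA D) (n : ℕ) (u : JA D) (hu : u.v = 0) :
    (chain x n u).p = W x n * u.p := by
  induction n with
  | zero => simp [chain, W]
  | succ n ih =>
    simp only [chain, p_mul, W, chain_v x n u hu, map_zero, zero_mul, zero_add, ih, mul_assoc]

theorem σσ (D : Dat F V C Q) (c : C) : D.σ (D.σ c) = c := by
  obtain ⟨e, o, rfl, se, -, so, -⟩ := D.dec c
  simp [se, so]

theorem W_comm (x : ℕ → JA D) (k : ℕ) (d : C) : W x (2 * k) * d = d * W x (2 * k) := by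
  induction k with
  | zero => simp [W]
  | succ k ih =>
    rw [show 2 * (k + 1) = 2 * k + 1 + 1 by ring]
    simp only [W]
    rw [mul_assoc, mul_assoc, ih, ← mul_assoc (D.ι _) d, D.ιc _ d, mul_assoc, ← mul_assoc (D.ι _) (D.σ d),
      D.ιc _ (D.σ d), σσ]
    simp only [mul_assoc]

theorem W_sigma (x : ℕ → JA D) (k : ℕ) : D.σ (W x (2 * k)) = W x (2 * k) := by
  induction k with
  | zero => simp [W]
  | succ k ih =>
    rw [show 2 * (k + 1) = 2 * k + 1 + 1 by ring]
    simp only [W, map_mul, D.σι, ih]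
    simp

theorem mono_eq (x : ℕ → JA D) (k i j l m : ℕ) : mono x k i j l m = JA.mk D 0 0 0
    (-(D.τ (W x (2 * k) * ((D.ι (x 0).v * (x l).p + D.ι (x l).v * (x 0).p) *
      ((D.ι (x m).v * (D.ι (x 0).v * (x i).p + D.ι (x i).v * (x 0).p)) *
        (D.ι (x 0).v * (x j).p + D.ι (x j).v * (x 0).p) +
      (D.ι (x 0).v * (x j).p + D.ι (x j).v * (x 0).p) *
        (D.ι (x m).v * (D.ι (x 0).v * (x i).p + D.ι (x i).v * (x 0).p))))))) := by
  have hv : (chain x (2 * k) ((x 0 * x i) * x m)).v = 0 := chain_v _ _ _ rfl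
  have hp : (chain x (2 * k) ((x 0 * x i) * x m)).p = W x (2 * k) *
      (D.ι (x m).v * (D.ι (x 0).v * (x i).p + D.ι (x i).v * (x 0).p)) := by
    rw [chain_p _ _ _ rfl]
    simp
  unfold mono
  ext
  · simp
  · simp [hv]
  · simp [hv]
  · simp only [s_mul, p_mul, q_mul, v_mul, hv, hp, map_zero, zero_mul, mul_zero, zero_add, add_zero, s_mk]
    rw [← map_neg]
    congr 1
    generalize D.ι (x m).v * (D.ι (x 0).v * (x i).p + D.ι (x i).v * (x 0).p) = a1
    generalize (D.ι (x 0).v * (x j).p + D.ι (x j).v * (x 0).p) = a2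
    generalize (D.ι (x 0).v * (x l).p + D.ι (x l).v * (x 0).p) = a3
    have hw := W_comm x k
    generalize W x (2 * k) = w at *
    simp only [zero_sub, mul_neg, neg_inj, mul_add]
    rw [← mul_assoc a2 w a1, ← hw a2, mul_assoc w a1 a2, mul_assoc w a2 a1, ← mul_assoc a3 w, ← mul_assoc a3 w,
      ← hw a3]
    simp only [mul_assoc]

set_option linter.unusedSimpArgs false in
theorem G_eq [CharP F 3] (x : ℕ → JA D) (k : ℕ) : G x k = JA.mk D 0 0 0
    (D.τ (W x (2 * k) * (D.ι (x 1).v * (D.ι (x 2).v * (D.ι (x 3).v * D.ι (x 4).v)) *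
      ((x 0).p * (x 0).p * (x 0).p)))) := by
  unfold G
  rw [mono_eq, mono_eq, mono_eq, mono_eq]
  ext
  · simp
  · simp
  · simp
  · simp only [s_add, s_sub, s_mk]
    rw [← sub_eq_zero]
    simp only [← map_sub, ← map_add, ← map_neg]
    apply tau_zero
    obtain ⟨e, o, hp0, se, he, so, ho⟩ := D.dec (x 0).p
    obtain ⟨e1, o1, hp1, se1, he1, so1, ho1⟩ := D.dec (x 1).p
    obtain ⟨e2, o2, hp2, se2, he2, so2, ho2⟩ := D.dec (x 2).p
    obtain ⟨e3, o3, hp3, se3, he3, so3, ho3⟩ := D.dec (x 3).p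
    obtain ⟨e4, o4, hp4, se4, he4, so4, ho4⟩ := D.dec (x 4).p
    have key := big (σ := (D.σ : C →+* C)) (three_zero F) (D.ιc (x 0).v) (D.σι _) (D.ιc (x 1).v) (D.σι _)
      (D.ιc (x 2).v) (D.σι _) (D.ιc (x 3).v) (D.σι _) (D.ιc (x 4).v) (D.σι _)
      ho so ho1 so1 ho2 so2 ho3 so3 ho4 so4 he se he1 se1 he2 se2 he3 se3 he4 se4
    rw [← hp0, ← hp1, ← hp2, ← hp3, ← hp4] at key
    have hw := W_sigma x k
    generalize W x (2 * k) = w at *
    have key2 := congrArg (fun c => w * c) key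
    simp only [mul_zero] at key2
    rw [← key2]
    simp only [RingHom.coe_coe, map_sub, map_add, map_mul, map_neg, hw, mul_sub, mul_add, mul_neg, neg_sub,
      neg_add, sub_eq_add_neg, neg_neg, neg_mul]

end JA

end Pool.Agent.H461R3.JV
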