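import Pool.Agent.H461R3.JV.Eval

namespace Pool.Agent.H461R3.JV

universe u

open ExteriorAlgebra

variable (F : Type u) [Field F]

abbrev M := ℕ → F
abbrev L := ExteriorAlgebra F (M F)

variable {F}

/-- central -/
def Cen (c : L F) : Prop := ∀ v : M F, c * ι F v = ι F v * c
/-- anti -/
def Ant (c : L F) : Prop := ∀ v : M F, c * ι F v = -(ι F v * c)

noncomputable def sg : L F →ₐ[F] L F := CliffordAlgebra.involute

theorem sg_ι (v : M F) : sg (ι F v) = - ι F v := CliffordAlgebra.involute_ι v

theorem ι_anti (v w : M F) : ι F v * ι F w = -(ι F w * ι F v) :=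
  eq_neg_of_add_eq_zero_left (ι_add_mul_swap (R := F) v w)

theorem Cen.comm {c : L F} (h : Cen c) (d : L F) : c * d = d * c := by
  induction d using ExteriorAlgebra.induction with
  | algebraMap r => exact (Algebra.commutes r c).symm
  | ι v => exact h v
  | mul a b ha hb => rw [← mul_assoc, ha, mul_assoc, hb, mul_assoc]
  | add a b ha hb => rw [mul_add, ha, hb, add_mul]

theorem Ant.comm {c : L F} (h : Ant c) (d : L F) : c * d = sg d * c := by
  induction d using ExteriorAlgebra.induction with
  | algebraMap r => rw [AlgHom.commutes]; exact (Algebra.commutes r c).symm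
  | ι v => rw [h v, sg_ι, neg_mul]
  | mul a b ha hb => rw [← mul_assoc, ha, mul_assoc, hb, map_mul, mul_assoc]
  | add a b ha hb => rw [mul_add, ha, hb, map_add, add_mul]

theorem decomp (c : L F) : ∃ e o : L F, c = e + o ∧ sg e = e ∧ Cen e ∧ sg o = -o ∧ Ant o := by
  induction c using ExteriorAlgebra.induction with
  | algebraMap r =>
    refine ⟨algebraMap F _ r, 0, by simp, AlgHom.commutes _ _, fun v => Algebra.commutes r _, by simp, ?_⟩
    intro v; simp
  | ι v =>
    refine ⟨0, ι F v, by simp, by simp, ?_, sg_ι v, fun w => ι_anti v w⟩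
    intro v; simp
  | add a b ha hb =>
    obtain ⟨e, o, rfl, se, he, so, ho⟩ := ha
    obtain ⟨e', o', rfl, se', he', so', ho'⟩ := hb
    refine ⟨e + e', o + o', by abel, by rw [map_add, se, se'], ?_, by rw [map_add, so, so', neg_add], ?_⟩
    · intro v; rw [add_mul, mul_add, he v, he' v]
    · intro v; rw [add_mul, mul_add, ho v, ho' v, neg_add]
  | mul a b ha hb =>
    obtain ⟨e, o, rfl, se, he, so, ho⟩ := ha
    obtain ⟨e', o', rfl, se', he', so', ho'⟩ := hb
    refine ⟨e * e' + o * o', e * o' + o * e', by simp [add_mul, mul_add]; abel,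
      by rw [map_add, map_mul, map_mul, se, se', so, so', neg_mul_neg], ?_,
      by rw [map_add, map_mul, map_mul, se, se', so, so', neg_mul, mul_neg, neg_add], ?_⟩
    · intro v
      rw [add_mul, mul_add, mul_assoc e, he' v, ← mul_assoc e, he v, mul_assoc, mul_assoc o, ho' v, mul_neg,
        ← mul_assoc o, ho v, neg_mul, neg_neg, mul_assoc]
    · intro v
      rw [add_mul, mul_add, mul_assoc e, ho' v, mul_neg, ← mul_assoc e, he v, mul_assoc, mul_assoc o, he' v,
        ← mul_assoc o, ho v, neg_mul, neg_add, mul_assoc]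

theorem ι_cmm (v : M F) (d : L F) : ι F v * d = sg d * ι F v :=
  Ant.comm (fun w => ι_anti v w) d

set_option linter.unusedSimpArgs false in
theorem cube_add [CharP F 3] (a b : L F) : (a + b) * (a + b) * (a + b) = a * a * a + b * b * b := by
  have hs : ∀ c : L F, c + c + c = 0 := three_zero F
  have z3 : ∀ c : L F, (3 : ℤ) • c = 0 := fun c => by
    rw [show (3 : ℤ) = 1 + 1 + 1 by norm_num, add_smul, add_smul, one_smul]; exact hs c
  have z6 : ∀ c : L F, (6 : ℤ) • c = 0 := fun c => by
    rw [show (6 : ℤ) = 2 * 3 by norm_num, mul_smul, z3, smul_zero]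
  obtain ⟨e, o, rfl, se, he0, so, ho0⟩ := decomp a
  obtain ⟨e', o', rfl, se', he0', so', ho0'⟩ := decomp b
  have he := he0.comm
  have he' := he0'.comm
  have ho := ho0.comm
  have ho' := ho0'.comm
  rw [← sub_eq_zero]
  simp only [sub_eq_add_neg, neg_add, mul_add, add_mul, mul_assoc, mul_neg, neg_mul, neg_neg, mul_zero, zero_mul, neg_zero, add_zero, zero_add,
    osq hs ho so, osq' hs ho so, osq hs ho' so', osq' hs ho' so', oswap ho so', oswap' ho so',
    cswap he o, cswap' he o, cswap he o', cswap' he o', cswap he' o, cswap' he' o, cswap he' o', cswap' he' o',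
    cswap he e', cswap' he e']
  abel_nf
  simp only [z3, z6, add_zero]

/-- cubes are scalars in characteristic 3 -/
theorem cube_scalar [CharP F 3] (c : L F) : ∃ r : F, c * c * c = algebraMap F _ r := by
  refine CliffordAlgebra.left_induction _ (P := fun c => ∃ r : F, c * c * c = algebraMap F _ r) ?_ ?_ ?_ c
  · intro r
    exact ⟨r * r * r, by simp only [map_mul]⟩
  · rintro a b ⟨r, hr⟩ ⟨s, hs⟩
    exact ⟨r + s, by rw [cube_add, hr, hs, map_add]⟩
  · intro a m _
    refine ⟨0, ?_⟩
    change ι F m * a * (ι F m * a) * (ι F m * a) = _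
    rw [ι_cmm m a]
    have : sg a * ι F m * (sg a * ι F m) = 0 := by
      rw [mul_assoc, ← mul_assoc (ι F m) (sg a), ι_cmm m (sg a), mul_assoc, ι_sq_zero, mul_zero, mul_zero]
    rw [this, zero_mul, map_zero]

noncomputable def alt (n : ℕ) : (M F) [⋀^Fin n]→ₗ[F] F :=
  (Matrix.detRowAlternating (n := Fin n) (R := F)).compLinearMap (LinearMap.funLeft F F (Fin.val : Fin n → ℕ))

noncomputable def tau (N : ℕ) : L F →ₗ[F] F :=
  ExteriorAlgebra.liftAlternating (fun i => if i = 2 * N then alt i else 0)

theorem tau_list (N : ℕ) (l : List (M F)) : tau N ((l.map (ι F)).prod) =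
    if l.length = 2 * N then alt l.length l.get else 0 := by
  have : (l.map (ι F)).prod = ιMulti F l.length l.get := by
    rw [ιMulti_apply]
    congr 1
    apply List.ext_getElem <;> simp
  rw [this, tau, liftAlternating_apply_ιMulti]
  split_ifs <;> rfl

theorem tau_ιMulti (N n : ℕ) (v : Fin n → M F) : tau N (ιMulti F n v) =
    if n = 2 * N then alt n v else 0 := by
  rw [tau, liftAlternating_apply_ιMulti]
  split_ifs <;> rfl

theorem tau_sg (N : ℕ) (c : L F) : tau N (sg c) = tau N c := by
  have : (tau N).comp (sg (F := F)).toLinearMap = tau N := by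
    apply lhom_ext
    intro n
    ext v
    simp only [LinearMap.compAlternatingMap_apply, LinearMap.comp_apply, AlgHom.toLinearMap_apply]
    have h1 : sg (ιMulti F n v) = ιMulti F n (fun i => (-1 : F) • v i) := by
      rw [ιMulti_apply, ιMulti_apply, map_list_prod, List.map_ofFn]
      congr 2
      ext i
      simp [sg_ι]
    rw [h1, tau_ιMulti, tau_ιMulti]
    split_ifs with h
    · subst h
      have := (alt (F := F) (2 * N)).toMultilinearMap.map_smul_univ (fun _ => (-1 : F)) v
      simp only [AlternatingMap.coe_multilinearMap] at this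
      rw [this]
      simp
    · rfl
  exact congrArg (fun f => f c) this


/-- the word `W n` as a list of vectors -/
def vl (z : ℕ → M F) : ℕ → List (M F)
  | 0 => []
  | n + 1 => z n :: vl z n

omit [Field F] in
theorem vl_length (z : ℕ → M F) (n : ℕ) : (vl z n).length = n := by
  induction n with
  | zero => rfl
  | succ n ih => simp [vl, ih]

def bas (i : ℕ) : M F := Pi.single i 1

theorem tau_std (N n : ℕ) (h : n = 2 * N) : tau N ((((List.range n).map (bas (F := F))).map (ι F)).prod) = 1 := by
  rw [tau_list, if_pos (by simp [h])]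
  rw [alt, AlternatingMap.compLinearMap_apply]
  have : (fun i => (LinearMap.funLeft F F (Fin.val : Fin ((List.range n).map (bas (F := F))).length → ℕ))
      (((List.range n).map (bas (F := F))).get i)) =
      (1 : Matrix (Fin ((List.range n).map (bas (F := F))).length) (Fin ((List.range n).map (bas (F := F))).length) F) := by
    ext i j
    simp [bas, LinearMap.funLeft_apply, Matrix.one_apply, Pi.single_apply, Fin.ext_iff, eq_comm]
  change Matrix.det _ = 1
  rw [this, Matrix.det_one]

theorem vl_std (K m : ℕ) (hm : m ≤ K) : vl (fun i => bas (F := F) (K - 1 - i)) m =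
    (List.range' (K - m) m).map bas := by
  induction m with
  | zero => simp [vl]
  | succ m ih =>
    rw [vl, ih (by omega), List.range'_succ, List.map_cons]
    have h1 : K - 1 - m = K - (m + 1) := by omega
    have h2 : K - m = K - (m + 1) + 1 := by omega
    rw [h1, h2]

end Pool.Agent.H461R3.JV
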