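import Pool.Agent.H461R3.JV.Ext
import Pool.Agent.H461R3.JV.Defs

namespace Pool.Agent.H461R3.JV

universe u

open FreeNonUnitalNonAssocAlgebra

variable {F : Type u} [Field F]

section nat
variable {A B : Type u} [NonUnitalNonAssocRing A] [Module F A] [IsScalarTower F A A]
  [SMulCommClass F A A] [NonUnitalNonAssocRing B] [Module F B] [IsScalarTower F B B]
  [SMulCommClass F B B]

theorem lift_nat (φ : A →ₙₐ[F] B) (a : ℕ → A) (g : FreeNonUnitalNonAssocAlgebra F ℕ) :
    φ (lift F a g) = lift F (fun i => φ (a i)) g := by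
  have : φ.comp (lift F a) = lift F (fun i => φ (a i)) := by
    apply FreeNonUnitalNonAssocAlgebra.hom_ext
    intro x
    simp
  exact DFunLike.congr_fun this g

omit [IsScalarTower F A A] [SMulCommClass F A A] [IsScalarTower F B B] [SMulCommClass F B B] in
theorem map_chain (φ : A →ₙₐ[F] B) (a : ℕ → A) (n : ℕ) (w : A) :
    φ (chain a n w) = chain (fun i => φ (a i)) n (φ w) := by
  induction n with
  | zero => rfl
  | succ n ih => simp only [chain, map_mul, ih]

omit [IsScalarTower F A A] [SMulCommClass F A A] [IsScalarTower F B B] [SMulCommClass F B B] in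
theorem map_G (φ : A →ₙₐ[F] B) (a : ℕ → A) (k : ℕ) : φ (G a k) = G (fun i => φ (a i)) k := by
  simp only [G, mono, map_sub, map_add, map_mul, map_chain]

theorem lift_G (a : ℕ → A) (k : ℕ) : lift F a (G (of F) k) = G a k := by
  rw [map_G]
  congr 1
  ext i
  simp

theorem derived_three (h : ∀ x1 x2 x3 x4 x5 x6 x7 x8 : A,
    ((x1 * x2) * (x3 * x4)) * ((x5 * x6) * (x7 * x8)) = 0) : derivedPower F A 3 = ⊥ := by
  have sp : ∀ (s : Set A) (f : A →ₗ[F] A), (∀ x ∈ s, f x = 0) → ∀ x ∈ Submodule.span F s, f x = 0 :=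
    fun s f hf x hx => (Submodule.span_le (p := LinearMap.ker f)).2 hf hx
  -- products of four elements of `A^(1)`
  have h1 : ∀ a ∈ derivedPower F A 1, ∀ b ∈ derivedPower F A 1, ∀ c ∈ derivedPower F A 1,
      ∀ d ∈ derivedPower F A 1, (a * b) * (c * d) = 0 := by
    intro a ha b hb c hc d hd
    refine sp _ ((LinearMap.mulRight F (c * d)).comp (LinearMap.mulRight F b)) ?_ a ha
    rintro _ ⟨x1, -, x2, -, rfl⟩
    refine sp _ ((LinearMap.mulRight F (c * d)).comp (LinearMap.mulLeft F (x1 * x2))) ?_ b hb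
    rintro _ ⟨x3, -, x4, -, rfl⟩
    refine sp _ ((LinearMap.mulLeft F ((x1 * x2) * (x3 * x4))).comp (LinearMap.mulRight F d)) ?_ c hc
    rintro _ ⟨x5, -, x6, -, rfl⟩
    refine sp _ ((LinearMap.mulLeft F ((x1 * x2) * (x3 * x4))).comp (LinearMap.mulLeft F (x5 * x6))) ?_ d hd
    rintro _ ⟨x7, -, x8, -, rfl⟩
    exact h _ _ _ _ _ _ _ _
  rw [eq_bot_iff]
  change Submodule.span F _ ≤ ⊥
  rw [Submodule.span_le]
  rintro _ ⟨x, hx, y, hy, rfl⟩
  change x * y ∈ (⊥ : Submodule F A)
  rw [Submodule.mem_bot]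
  refine sp _ (LinearMap.mulRight F y) ?_ x hx
  rintro _ ⟨a, ha, b, hb, rfl⟩
  refine sp _ (LinearMap.mulLeft F (a * b)) ?_ y hy
  rintro _ ⟨c, hc, d, hd, rfl⟩
  exact h1 a ha b hb c hc d hd

end nat

variable (F) in
noncomputable def idComm : FreeNonUnitalNonAssocAlgebra F ℕ := of F 0 * of F 1 - of F 1 * of F 0
variable (F) in
noncomputable def idJord : FreeNonUnitalNonAssocAlgebra F ℕ :=
  ((of F 0 * of F 0) * of F 1) * of F 0 - (of F 0 * of F 0) * (of F 1 * of F 0)
variable (F) in
noncomputable def idSolv : FreeNonUnitalNonAssocAlgebra F ℕ :=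
  ((of F 0 * of F 1) * (of F 2 * of F 3)) * ((of F 4 * of F 5) * (of F 6 * of F 7))
variable (F) in
noncomputable def SS : Set (FreeNonUnitalNonAssocAlgebra F ℕ) :=
  {idComm F, idJord F, idSolv F} ∪ Set.range (fun k => G (of F) k)

theorem SS_jordan (A : Type u) [NonUnitalNonAssocRing A] [Module F A] [IsScalarTower F A A]
    [SMulCommClass F A A] (h : InVariety F (SS F) A) :
    IsJordanAlgebra A ∧ derivedPower F A 3 = ⊥ := by
  refine ⟨⟨?_, ?_⟩, ?_⟩
  · intro x y
    have := h (idComm F) (by simp [SS]) (fun i => if i = 0 then x else y)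
    simpa [idComm, sub_eq_zero] using this
  · intro x y
    have := h (idJord F) (by simp [SS]) (fun i => if i = 0 then x else y)
    simpa [idJord, sub_eq_zero] using this
  · apply derived_three
    intro x1 x2 x3 x4 x5 x6 x7 x8
    have := h (idSolv F) (by simp [SS]) (fun i => if i = 0 then x1 else if i = 1 then x2 else
      if i = 2 then x3 else if i = 3 then x4 else if i = 4 then x5 else if i = 5 then x6 else
      if i = 6 then x7 else x8)
    simpa [idSolv] using this

theorem base_JA [CharP F 3] {V C Q : Type u} [AddCommGroup V] [Module F V]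
    [Ring C] [Algebra F C] [AddCommGroup Q] [Module F Q] (D : Dat F V C Q)
    (f : FreeNonUnitalNonAssocAlgebra F ℕ) (hf : f ∈ ({idComm F, idJord F, idSolv F} : Set _)) :
    Satisfies F (JA D) f := by
  intro a
  rcases hf with rfl | rfl | rfl
  · simp only [idComm, map_sub, map_mul, lift_of_apply, sub_eq_zero]
    exact JA.mul_comm' _ _
  · simp only [idJord, map_sub, map_mul, lift_of_apply, sub_eq_zero]
    exact JA.jordan _ _
  · simp only [idSolv, map_mul, lift_of_apply]
    ext <;> simp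

variable (F) in
noncomputable def DN (N : ℕ) : Dat F (M F) (L F) F where
  ι := ExteriorAlgebra.ι F
  τ := tau N
  σ := sg
  dec c := by
    obtain ⟨e, o, h, se, he, so, ho⟩ := decomp c
    exact ⟨e, o, h, se, he.comm, so, ho.comm⟩
  σι := sg_ι
  ιc := ι_cmm
  τσ := tau_sg N

noncomputable def DP {Q : Type u} [AddCommGroup Q] [Module F Q] (π : (ℕ → F) →ₗ[F] Q) :
    Dat F (ℕ → M F) (ℕ → L F) Q where
  ι := LinearMap.pi (fun n => (ExteriorAlgebra.ι F).comp (LinearMap.proj n))
  τ := π.comp (LinearMap.pi (fun n => (tau n).comp (LinearMap.proj n)))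
  σ := Pi.algHom F (fun _ => L F) (fun n => sg.comp (Pi.evalAlgHom F (fun _ => L F) n))
  dec c := by
    choose e o h se he so ho using fun n => decomp (c n)
    refine ⟨e, o, funext h, funext se, ?_, funext so, ?_⟩
    · intro d; funext n; exact (he n).comm (d n)
    · intro d; funext n; exact (ho n).comm (d n)
  σι v := funext fun n => sg_ι (v n)
  ιc v d := funext fun n => ι_cmm (v n) (d n)
  τσ c := by
    simp only [LinearMap.comp_apply]
    congr 1
    funext n
    exact tau_sg n (c n)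

noncomputable def ev (n : ℕ) : JA (DP (LinearMap.id : (ℕ → F) →ₗ[F] (ℕ → F))) →ₙₐ[F] JA (DN F n) where
  toFun x := JA.mk _ (x.v n) (x.p n) (x.q n) (x.s n)
  map_smul' _ _ := rfl
  map_zero' := rfl
  map_add' _ _ := rfl
  map_mul' _ _ := rfl

noncomputable def qt {Q : Type u} [AddCommGroup Q] [Module F Q] (π : (ℕ → F) →ₗ[F] Q) :
    JA (DP (LinearMap.id : (ℕ → F) →ₗ[F] (ℕ → F))) →ₙₐ[F] JA (DP π) where
  toFun x := JA.mk _ x.v x.p x.q (π x.s)
  map_smul' r x := by ext <;> simp
  map_zero' := by ext <;> simp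
  map_add' x y := by ext <;> simp
  map_mul' x y := rfl


theorem W_vl (N : ℕ) (x : ℕ → JA (DN F N)) (n : ℕ) :
    JA.W x n = ((vl (fun i => (x (5 + i)).v) n).map (ExteriorAlgebra.ι F)).prod := by
  induction n with
  | zero => simp [JA.W, vl]
  | succ n ih => rw [JA.W, ih, vl, List.map_cons, List.prod_cons]; rfl

/-- the list of the letters -/
noncomputable def letters {N : ℕ} (x : ℕ → JA (DN F N)) (k : ℕ) : List (M F) :=
  vl (fun i => (x (5 + i)).v) (2 * k) ++ [(x 1).v, (x 2).v, (x 3).v, (x 4).v]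

theorem letters_length {N : ℕ} (x : ℕ → JA (DN F N)) (k : ℕ) :
    (letters x k).length = 2 * (k + 2) := by
  simp [letters, vl_length]; ring

theorem G_DN [CharP F 3] (N : ℕ) (x : ℕ → JA (DN F N)) (k : ℕ) : ∃ r : F,
    algebraMap F (L F) r = (x 0).p * (x 0).p * (x 0).p ∧
    G x k = JA.mk _ 0 0 0 (r * tau N (((letters x k).map (ExteriorAlgebra.ι F)).prod)) := by
  obtain ⟨r, hr⟩ := cube_scalar (x 0).p
  refine ⟨r, hr.symm, ?_⟩
  rw [JA.G_eq, hr]
  congr 1
  rw [show ∀ X, r * tau N X = tau N (r • X) from fun X => by rw [map_smul, smul_eq_mul], W_vl]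
  change tau N _ = _
  congr 1
  simp only [letters, List.map_append, List.prod_append, List.map_cons, List.map_nil, List.prod_cons,
    List.prod_nil, mul_one]
  rw [Algebra.smul_def, Algebra.commutes]
  simp only [mul_assoc]
  rfl

theorem G_DN_zero [CharP F 3] (N : ℕ) (x : ℕ → JA (DN F N)) (k : ℕ) (h : k + 2 ≠ N) : G x k = 0 := by
  obtain ⟨r, -, h2⟩ := G_DN N x k
  rw [h2, tau_list, if_neg (by rw [letters_length]; omega), mul_zero]
  rfl

theorem G_DN_ne [CharP F 3] (k : ℕ) : ∃ x : ℕ → JA (DN F (k + 2)), G x k ≠ 0 := by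
  refine ⟨fun i => if i = 0 then JA.mk _ 0 1 0 0 else if i < 5 then
    JA.mk _ (bas (2 * k + (i - 1))) 0 0 0 else JA.mk _ (bas (2 * k - 1 - (i - 5))) 0 0 0, ?_⟩
  set x : ℕ → JA (DN F (k + 2)) := (fun i => if i = 0 then JA.mk _ 0 1 0 0 else if i < 5 then
    JA.mk _ (bas (2 * k + (i - 1))) 0 0 0 else JA.mk _ (bas (2 * k - 1 - (i - 5))) 0 0 0) with hx
  obtain ⟨r, h1, h2⟩ := G_DN (k + 2) x k
  have hr : r = 1 := by
    have : (x 0).p = 1 := rfl
    rw [this, mul_one, mul_one] at h1
    exact (ExteriorAlgebra.algebraMap_eq_one_iff (M := M F) r).1 h1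
  have hl : letters x k = (List.range (2 * k + 4)).map bas := by
    have e1 : (fun i => (x (5 + i)).v) = fun i => bas (F := F) (2 * k - 1 - i) := by
      funext i
      simp [hx]
    rw [letters, e1, vl_std (2 * k) (2 * k) le_rfl]
    have e2 : List.range (2 * k + 4) = List.range' (2 * k - 2 * k) (2 * k) ++ [2 * k, 2 * k + 1, 2 * k + 2, 2 * k + 3] := by
      rw [Nat.sub_self, ← List.range_eq_range']
      rw [List.range_succ, List.range_succ, List.range_succ, List.range_succ]
      simp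
    rw [e2, List.map_append]
    congr 1
  rw [h2, hl, tau_std _ _ (by ring), hr, mul_one]
  intro h
  have : (1 : F) = 0 := congrArg JA.s h
  exact one_ne_zero this

variable (F) in
/-- finitely supported sequences -/
def fin0 : Submodule F (ℕ → F) where
  carrier := {f | {n | f n ≠ 0}.Finite}
  add_mem' {a b} ha hb := by
    refine (ha.union hb).subset ?_
    intro n hn
    by_contra hc
    simp only [Set.mem_union, Set.mem_setOf_eq, not_or, not_not] at hc
    exact hn (by simp [hc.1, hc.2])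
  zero_mem' := by simp
  smul_mem' c a ha := by
    refine Set.Finite.subset ha ?_
    intro n hn hc
    exact hn (by simp [hc])

theorem W_congr {V C Q : Type u} [AddCommGroup V] [Module F V]
    [Ring C] [Algebra F C] [AddCommGroup Q] [Module F Q] {D : Dat F V C Q} (x x' : ℕ → JA D)
    (h : ∀ i, (x i).v = (x' i).v) (n : ℕ) : JA.W x n = JA.W x' n := by
  induction n with
  | zero => rfl
  | succ n ih => rw [JA.W, JA.W, ih, h]

theorem G_DP [CharP F 3] (x : ℕ → JA (DP (fin0 F).mkQ)) (k : ℕ) : G x k = 0 := by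
  -- lift to the full product
  let y : ℕ → JA (DP (LinearMap.id : (ℕ → F) →ₗ[F] (ℕ → F))) :=
    fun i => JA.mk _ (x i).v (x i).p (x i).q 0
  have h1 : G x k = qt (fin0 F).mkQ (G y k) := by
    rw [map_G, JA.G_eq, JA.G_eq, W_congr x (fun i => qt (fin0 F).mkQ (y i)) (fun i => rfl)]
    rfl
  have h2 : ∀ n, n ≠ k + 2 → ev n (G y k) = 0 := by
    intro n hn
    rw [map_G]
    exact G_DN_zero n _ k (fun h => hn h.symm)
  have h3 : G y k = JA.mk _ 0 0 0 (G y k).s := by
    rw [JA.G_eq]
    rfl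
  have h4 : (G y k).s ∈ fin0 F := by
    refine Set.Finite.subset (Set.finite_singleton (k + 2)) ?_
    intro n hn
    by_contra hc
    exact hn (congrArg JA.s (h2 n hc))
  rw [h1, h3]
  ext
  · rfl
  · rfl
  · rfl
  · exact (Submodule.Quotient.mk_eq_zero _).2 h4

theorem not_fb (F : Type u) [Field F] [CharP F 3] : ¬ IsFinitelyBased F (SS F) := by
  rintro ⟨T, hT, hTS⟩
  -- the algebras `JA (DN F n)`, `n ≥ 2`, are not in the variety
  have h1 : ∀ n, ∃ g ∈ T, ∃ a : ℕ → JA (DN F (n + 2)), lift F a g ≠ 0 := by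
    intro n
    by_contra hc
    push Not at hc
    have hin : InVariety F T (JA (DN F (n + 2))) := fun g hg a => hc g hg a
    rw [← hTS] at hin
    obtain ⟨x, hx⟩ := G_DN_ne (F := F) n
    have := hin (G (of F) n) (Or.inr ⟨n, rfl⟩) x
    rw [lift_G] at this
    exact hx this
  choose g hgT a ha using h1
  -- pigeonhole
  obtain ⟨g0, hg0, hinf⟩ : ∃ g0 ∈ T, {n | g n = g0}.Infinite := by
    by_contra hc
    push Not at hc
    have : (⋃ g0 ∈ T, {n | g n = g0}).Finite := hT.biUnion (fun g0 h => by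
      have := hc g0 h
      simpa using this)
    apply Set.infinite_univ (α := ℕ)
    refine this.subset ?_
    intro n _
    simp only [Set.mem_iUnion, Set.mem_setOf_eq]
    exact ⟨g n, hgT n, rfl⟩
  -- the reduced product is in the variety
  have hP : InVariety F (SS F) (JA (DP (fin0 F).mkQ)) := by
    intro f hf
    rcases hf with hf | ⟨k, rfl⟩
    · exact base_JA _ f hf
    · intro x
      change lift F x (G (of F) k) = 0
      rw [lift_G]
      exact G_DP x k
  rw [hTS] at hP
  let b : ℕ → JA (DP (LinearMap.id : (ℕ → F) →ₗ[F] (ℕ → F))) := fun i =>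
    JA.mk _ (fun n => if h : 2 ≤ n then (a (n - 2) i).v else 0)
      (fun n => if h : 2 ≤ n then (a (n - 2) i).p else 0)
      (fun n => if h : 2 ≤ n then (a (n - 2) i).q else 0)
      (fun n => if h : 2 ≤ n then (a (n - 2) i).s else 0)
  have hb : ∀ n, (fun i => ev (n + 2) (b i)) = a n := by
    intro n
    funext i
    have h2 : 2 ≤ n + 2 := by omega
    refine JA.ext' ?_ ?_ ?_ ?_
    · change (if h : 2 ≤ n + 2 then (a (n + 2 - 2) i).v else 0) = (a n i).v
      rw [dif_pos h2]; rfl
    · change (if h : 2 ≤ n + 2 then (a (n + 2 - 2) i).p else 0) = (a n i).p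
      rw [dif_pos h2]; rfl
    · change (if h : 2 ≤ n + 2 then (a (n + 2 - 2) i).q else 0) = (a n i).q
      rw [dif_pos h2]; rfl
    · change (if h : 2 ≤ n + 2 then (a (n + 2 - 2) i).s else 0) = (a n i).s
      rw [dif_pos h2]; rfl
  set z := lift F b g0 with hz
  have hz1 : qt (fin0 F).mkQ z = 0 := by
    rw [hz, lift_nat]
    exact hP g0 hg0 _
  have hz2 : z.v = 0 ∧ z.p = 0 ∧ z.q = 0 ∧ z.s ∈ fin0 F := by
    refine ⟨congrArg JA.v hz1, congrArg JA.p hz1, congrArg JA.q hz1, ?_⟩
    have := congrArg JA.s hz1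
    exact (Submodule.Quotient.mk_eq_zero _).1 this
  obtain ⟨zv, zp, zq, zs⟩ := hz2
  have hz3 : ∀ n ∈ {n | g n = g0}, z.s (n + 2) ≠ 0 := by
    intro n hn h0
    have h2 : ev (n + 2) z = lift F (a n) (g n) := by
      rw [hz, lift_nat, hb, hn]
    apply ha n
    rw [← h2]
    refine JA.ext' ?_ ?_ ?_ ?_
    · change z.v (n + 2) = 0
      rw [zv]; rfl
    · change z.p (n + 2) = 0
      rw [zp]; rfl
    · change z.q (n + 2) = 0
      rw [zq]; rfl
    · exact h0
  apply hinf
  have : ((fun n => n + 2) ⁻¹' {n | z.s n ≠ 0}).Finite :=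
    Set.Finite.preimage (fun a _ b _ h => by simpa using h) zs
  exact this.subset (fun n hn => hz3 n hn)

end Pool.Agent.H461R3.JV
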