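import Pool.Agent.H461R3.JV.Alg

namespace Pool.Agent.H461R3.JV

universe u

section rules
variable {C : Type u} [Ring C] {σ : C → C}

theorem oswap {x y : C} (hx : ∀ d, x * d = σ d * x) (sy : σ y = -y) : y * x = -(x * y) := by
  rw [hx y, sy]; simp

theorem oswap' {x y : C} (hx : ∀ d, x * d = σ d * x) (sy : σ y = -y) (w : C) :
    y * (x * w) = -(x * (y * w)) := by
  rw [← mul_assoc, oswap hx sy]; simp [mul_assoc]

theorem osq (h3 : ∀ c : C, c + c + c = 0) {x : C} (hx : ∀ d, x * d = σ d * x) (sx : σ x = -x) :
    x * x = 0 := by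
  have h := oswap hx sx
  have h' : x * x + x * x = 0 := by
    nth_rewrite 1 [h]; simp
  have := h3 (x * x)
  rw [h', zero_add] at this
  exact this

theorem osq' (h3 : ∀ c : C, c + c + c = 0) {x : C} (hx : ∀ d, x * d = σ d * x) (sx : σ x = -x)
    (w : C) : x * (x * w) = 0 := by
  rw [← mul_assoc, osq h3 hx sx, zero_mul]

theorem cswap {c : C} (hc : ∀ d, c * d = d * c) (x : C) : x * c = c * x := (hc x).symm

theorem cswap' {c : C} (hc : ∀ d, c * d = d * c) (x w : C) : x * (c * w) = c * (x * w) := by
  rw [← mul_assoc, ← hc x, mul_assoc]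

end rules

variable {F : Type u} [Field F] [CharP F 3] {V C Q : Type u} [AddCommGroup V] [Module F V]
    [Ring C] [Algebra F C] [AddCommGroup Q] [Module F Q]

omit [Field F] [CharP F 3] [AddCommGroup V] [Module F V] [Ring C] [Algebra F C] in
theorem three_zero (F : Type u) [Field F] [CharP F 3] {M : Type u} [AddCommGroup M] [Module F M]
    (c : M) : c + c + c = 0 := by
  have h : (3 : F) = 0 := by exact_mod_cast CharP.cast_eq_zero F 3
  have : (3 : F) • c = c + c + c := by
    rw [show (3 : F) = 1 + 1 + 1 by norm_num, add_smul, add_smul, one_smul]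
  rw [← this, h, zero_smul]

theorem tau_zero (D : Dat F V C Q) {c : C} (h : c + D.σ c = 0) : D.τ c = 0 := by
  have h1 : D.τ c + D.τ c = 0 := by
    nth_rewrite 2 [← D.τσ c]
    rw [← map_add, h, map_zero]
  have h2 := three_zero F (D.τ c)
  rw [h1, zero_add] at h2
  exact h2


theorem nz3 {F : Type u} [Field F] [CharP F 3] {M : Type u} [AddCommGroup M] [Module F M]
    (k : ℕ) (c : M) : (3 * k) • c = 0 := by
  rw [mul_comm, mul_smul, show (3 : ℕ) • c = c + c + c by abel, three_zero F c, smul_zero]

set_option linter.unusedSimpArgs false in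
set_option maxHeartbeats 4000000 in
theorem JA.jordan {D : Dat F V C Q} (x y : JA D) : ((x * x) * y) * x = (x * x) * (y * x) := by
  have hs : ∀ c : C, c + c + c = 0 := three_zero F
  have z6 : ∀ c : C, (6 : ℤ) • c = 0 := fun c => by
    rw [show (6 : ℤ) = ((3 * 2 : ℕ) : ℤ) by norm_num, natCast_zsmul]; exact nz3 (F := F) 2 c
  have z12 : ∀ c : C, (12 : ℤ) • c = 0 := fun c => by
    rw [show (12 : ℤ) = ((3 * 4 : ℕ) : ℤ) by norm_num, natCast_zsmul]; exact nz3 (F := F) 4 c
  have z24 : ∀ c : C, (24 : ℤ) • c = 0 := fun c => by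
    rw [show (24 : ℤ) = ((3 * 8 : ℕ) : ℤ) by norm_num, natCast_zsmul]; exact nz3 (F := F) 8 c
  obtain ⟨e, o, hp, se, he, so, ho⟩ := D.dec x.p
  obtain ⟨e', o', hp', se', he', so', ho'⟩ := D.dec y.p
  obtain ⟨f, g, hq, sf, hf, sg, hg⟩ := D.dec x.q
  obtain ⟨f', g', hq', sf', hf', sg', hg'⟩ := D.dec y.q
  have hu := D.ιc x.v
  have su := D.σι x.v
  have hu' := D.ιc y.v
  have su' := D.σι y.v
  ext
  · simp
  · simp only [JA.v_mul, JA.p_mul, JA.q_mul, JA.s_mul, map_zero, zero_mul, mul_zero, zero_add, add_zero]
    rw [hp]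
    generalize D.ι x.v = u at *
    generalize D.ι y.v = u' at *
    simp only [mul_add, add_mul, mul_assoc, mul_neg, neg_mul, neg_neg, mul_zero, zero_mul, neg_zero, add_zero, zero_add,
      osq hs hu su, osq' hs hu su, oswap hu su',
    oswap' hu su', oswap hu so, oswap' hu so,
    oswap hu so', oswap' hu so', oswap hu sg,
    oswap' hu sg, oswap hu sg', oswap' hu sg',
    osq hs hu' su', osq' hs hu' su', oswap hu' so,
    oswap' hu' so, oswap hu' so', oswap' hu' so',
    oswap hu' sg, oswap' hu' sg, oswap hu' sg',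
    oswap' hu' sg', osq hs ho so, osq' hs ho so,
    oswap ho so', oswap' ho so', oswap ho sg,
    oswap' ho sg, oswap ho sg', oswap' ho sg',
    osq hs ho' so', osq' hs ho' so', oswap ho' sg,
    oswap' ho' sg, oswap ho' sg', oswap' ho' sg',
    osq hs hg sg, osq' hs hg sg, oswap hg sg',
    oswap' hg sg', osq hs hg' sg', osq' hs hg' sg',
    cswap he u, cswap' he u, cswap he u',
    cswap' he u', cswap he o, cswap' he o,
    cswap he o', cswap' he o', cswap he g,
    cswap' he g, cswap he g', cswap' he g',
    cswap he e', cswap' he e', cswap he f,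
    cswap' he f, cswap he f', cswap' he f',
    cswap he' u, cswap' he' u, cswap he' u',
    cswap' he' u', cswap he' o, cswap' he' o,
    cswap he' o', cswap' he' o', cswap he' g,
    cswap' he' g, cswap he' g', cswap' he' g',
    cswap he' f, cswap' he' f, cswap he' f',
    cswap' he' f', cswap hf u, cswap' hf u,
    cswap hf u', cswap' hf u', cswap hf o,
    cswap' hf o, cswap hf o', cswap' hf o',
    cswap hf g, cswap' hf g, cswap hf g',
    cswap' hf g', cswap hf f', cswap' hf f',
    cswap hf' u, cswap' hf' u, cswap hf' u',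
    cswap' hf' u', cswap hf' o, cswap' hf' o,
    cswap hf' o', cswap' hf' o', cswap hf' g,
    cswap' hf' g, cswap hf' g', cswap' hf' g']
  · simp only [JA.v_mul, JA.p_mul, JA.q_mul, JA.s_mul, map_zero, zero_mul, mul_zero, zero_add, add_zero]
    rw [hp, hp', hq]
    generalize D.ι x.v = u at *
    generalize D.ι y.v = u' at *
    rw [← sub_eq_zero]
    simp only [sub_eq_add_neg, neg_add, mul_add, add_mul, mul_assoc, mul_neg, neg_mul, neg_neg, mul_zero, zero_mul, neg_zero, add_zero, zero_add,
      osq hs hu su, osq' hs hu su, oswap hu su',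
    oswap' hu su', oswap hu so, oswap' hu so,
    oswap hu so', oswap' hu so', oswap hu sg,
    oswap' hu sg, oswap hu sg', oswap' hu sg',
    osq hs hu' su', osq' hs hu' su', oswap hu' so,
    oswap' hu' so, oswap hu' so', oswap' hu' so',
    oswap hu' sg, oswap' hu' sg, oswap hu' sg',
    oswap' hu' sg', osq hs ho so, osq' hs ho so,
    oswap ho so', oswap' ho so', oswap ho sg,
    oswap' ho sg, oswap ho sg', oswap' ho sg',
    osq hs ho' so', osq' hs ho' so', oswap ho' sg,
    oswap' ho' sg, oswap ho' sg', oswap' ho' sg',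
    osq hs hg sg, osq' hs hg sg, oswap hg sg',
    oswap' hg sg', osq hs hg' sg', osq' hs hg' sg',
    cswap he u, cswap' he u, cswap he u',
    cswap' he u', cswap he o, cswap' he o,
    cswap he o', cswap' he o', cswap he g,
    cswap' he g, cswap he g', cswap' he g',
    cswap he e', cswap' he e', cswap he f,
    cswap' he f, cswap he f', cswap' he f',
    cswap he' u, cswap' he' u, cswap he' u',
    cswap' he' u', cswap he' o, cswap' he' o,
    cswap he' o', cswap' he' o', cswap he' g,
    cswap' he' g, cswap he' g', cswap' he' g',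
    cswap he' f, cswap' he' f, cswap he' f',
    cswap' he' f', cswap hf u, cswap' hf u,
    cswap hf u', cswap' hf u', cswap hf o,
    cswap' hf o, cswap hf o', cswap' hf o',
    cswap hf g, cswap' hf g, cswap hf g',
    cswap' hf g', cswap hf f', cswap' hf f',
    cswap hf' u, cswap' hf' u, cswap hf' u',
    cswap' hf' u', cswap hf' o, cswap' hf' o,
    cswap hf' o', cswap' hf' o', cswap hf' g,
    cswap' hf' g, cswap hf' g', cswap' hf' g']
    abel_nf
    simp only [z6, z12, z24, add_zero]
  · simp only [JA.v_mul, JA.p_mul, JA.q_mul, JA.s_mul, map_zero, zero_mul, mul_zero, zero_add, add_zero]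
    rw [hp, hp', hq, hq']
    generalize D.ι x.v = u at *
    generalize D.ι y.v = u' at *
    rw [← sub_eq_zero, ← map_sub]
    apply tau_zero
    simp only [map_sub, map_add, map_mul, map_neg, se, so, se', so', sf, sg, sf', sg', su, su', sub_eq_add_neg, neg_add, mul_add, add_mul, mul_assoc, mul_neg, neg_mul, neg_neg, mul_zero, zero_mul, neg_zero, add_zero, zero_add,
      osq hs hu su, osq' hs hu su, oswap hu su',
    oswap' hu su', oswap hu so, oswap' hu so,
    oswap hu so', oswap' hu so', oswap hu sg,
    oswap' hu sg, oswap hu sg', oswap' hu sg',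
    osq hs hu' su', osq' hs hu' su', oswap hu' so,
    oswap' hu' so, oswap hu' so', oswap' hu' so',
    oswap hu' sg, oswap' hu' sg, oswap hu' sg',
    oswap' hu' sg', osq hs ho so, osq' hs ho so,
    oswap ho so', oswap' ho so', oswap ho sg,
    oswap' ho sg, oswap ho sg', oswap' ho sg',
    osq hs ho' so', osq' hs ho' so', oswap ho' sg,
    oswap' ho' sg, oswap ho' sg', oswap' ho' sg',
    osq hs hg sg, osq' hs hg sg, oswap hg sg',
    oswap' hg sg', osq hs hg' sg', osq' hs hg' sg',
    cswap he u, cswap' he u, cswap he u',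
    cswap' he u', cswap he o, cswap' he o,
    cswap he o', cswap' he o', cswap he g,
    cswap' he g, cswap he g', cswap' he g',
    cswap he e', cswap' he e', cswap he f,
    cswap' he f, cswap he f', cswap' he f',
    cswap he' u, cswap' he' u, cswap he' u',
    cswap' he' u', cswap he' o, cswap' he' o,
    cswap he' o', cswap' he' o', cswap he' g,
    cswap' he' g, cswap he' g', cswap' he' g',
    cswap he' f, cswap' he' f, cswap he' f',
    cswap' he' f', cswap hf u, cswap' hf u,
    cswap hf u', cswap' hf u', cswap hf o,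
    cswap' hf o, cswap hf o', cswap' hf o',
    cswap hf g, cswap' hf g, cswap hf g',
    cswap' hf g', cswap hf f', cswap' hf f',
    cswap hf' u, cswap' hf' u, cswap hf' u',
    cswap' hf' u', cswap hf' o, cswap' hf' o,
    cswap hf' o', cswap' hf' o', cswap hf' g,
    cswap' hf' g, cswap hf' g', cswap' hf' g']
    abel_nf
    simp only [z6, z12, z24, add_zero]

end Pool.Agent.H461R3.JV
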